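import Pool.Agent.Helper1.MT.DefsU
import Pool.Agent.Helper28.MT.OneDim

/-!
# Project MT, part 2, module MU-A: the one-dimensional sums, uniformly in the modulus
-/

set_option autoImplicit false

open Finset

namespace Pool.Agent.Helper81.MT

open Pool.Agent.Helper1.MT Pool.Agent.Helper28.MT

/-- The one-dimensional sums, from the sum over the squarefree integers. -/
theorem core {K J D0 W R : ℕ} (hK : 0 < K) (hJ : 10 * 2 ^ J ≤ 8 * K * (J + 2))
    (hD : (K + 2) ^ 10 ≤ D0) (hp : ∀ p : ℕ, p.Prime → p < D0 → p ∣ W) (hR3 : 3 ≤ R) {c C : ℝ}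
    (hC : 0 < C)
    (hS : ∀ z : ℝ, 1 ≤ z →
      |∑ d ∈ (Icc 1 ⌊z⌋₊).filter (fun d => Squarefree d ∧ d.Coprime W), 1 / (d : ℝ) -
        c * Real.log z| ≤ C)
    (hlog : 10 * Kp K J * C ≤ c * Real.log R) :
      Good K (wp R W) (tp R W) (gam K J) (2 ^ J / Kp K J) (2 / D0) ∧
      ((K : ℝ) - 1) * M1 (wp R W) (tp R W) (gam K J) ≤
        1 / 10 * (1 - 2 ^ J / Kp K J) * B1 (wp R W) (gam K J) ∧
      9 / 10 * (J + 2 : ℝ) / (2 * Kp K J) * (c * Real.log R) ≤ A1 (wp R W) (gam K J) ∧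
      A1 (wp R W) (gam K J) ≤ 11 / 10 * (J + 2 : ℝ) / (2 * Kp K J) * (c * Real.log R) ∧
      9 / 10 / Kp K J * (c * Real.log R) ≤ B1 (wp R W) (gam K J) ∧
      B1 (wp R W) (gam K J) ≤ 16 / 10 / Kp K J * (c * Real.log R) ∧
      9 / 10 * (c * Real.log R) ≤ V0 (wp R W) (tp R W) := by
  have hκ : 0 < Kp K J := by unfold Kp; positivity
  have hK0 : (1 : ℝ) ≤ K := by exact_mod_cast hK
  have hκ1 : 1 ≤ Kp K J := by
    unfold Kp
    have : (0 : ℝ) ≤ J := by positivity
    nlinarith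
  have hR0 : (0 : ℝ) < R := by positivity
  set L := c * Real.log R with hL
  set κ := Kp K J with hκd
  have hCL : C ≤ 1 / 10 * (L / κ) := by
    have : 1 / 10 * (L / κ) = L / (10 * κ) := by field_simp
    rw [this, le_div_iff₀ (by positivity)]
    linarith
  have hLκ : 0 < L / κ := by linarith
  have hL0 : 0 < L := by
    have := mul_pos hLκ hκ
    rwa [div_mul_cancel₀ _ hκ.ne'] at this
  have hG := good (R := R) hK hJ hD hp
  have hθ : (2 : ℝ) ^ J / κ ≤ 1 / 10 := hG.tau_le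
  have hFF : ∀ θ : ℝ, 0 ≤ θ → θ ≤ 1 → |FF R W θ - θ * L| ≤ C := by
    intro θ h0 h1
    rw [FF_eq hR3 h1]
    have h2 := hS ((R : ℝ) ^ θ) (Real.one_le_rpow (by exact_mod_cast (by omega : 1 ≤ R)) h0)
    rw [Real.log_rpow hR0] at h2
    have h3 : θ * L = c * (θ * Real.log R) := by rw [hL]; ring
    rw [h3]
    exact h2
  have hFj : ∀ j ≤ J, |FF R W (2 ^ j / κ) - 2 ^ j / κ * L| ≤ C := by
    intro j hj
    exact hFF _ (by positivity) ((thr_mono hκ hj).trans (hθ.trans (by norm_num)))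
  -- the sum A1
  have hA : |A1 (wp R W) (gam K J) - ((J : ℝ) + 2) / (2 * κ) * L| ≤ C := by
    have h1 : A1 (wp R W) (gam K J) = ∑ j ∈ range J, (1 / 2 : ℝ) ^ (j + 1) * FF R W (2 ^ j / κ) +
        (1 / 2) ^ J * FF R W (2 ^ J / κ) := by
      rw [← sum_step]
      rfl
    have h2 := lin_err (κ := κ) J (FF R W) hFj (fun j => (1 / 2 : ℝ) ^ (j + 1)) ((1 / 2) ^ J)
      (fun j => by positivity) (by positivity)
    rw [sum_mainA, sum_half, one_mul] at h2
    rw [h1]
    exact h2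
  have hB : |B1 (wp R W) (gam K J) - (3 / 2 - (1 / 2) * (1 / 2) ^ J) / κ * L| ≤ C := by
    have h1 : B1 (wp R W) (gam K J) =
        ∑ j ∈ range J, ((3 / 4 : ℝ) * (1 / 4) ^ j) * FF R W (2 ^ j / κ) +
        (1 / 4) ^ J * FF R W (2 ^ J / κ) := by
      rw [← sum_step]
      unfold B1
      apply sum_congr rfl
      intro S _
      rw [gam_eq, gJ_sq hκ]
      rfl
    have h2 := lin_err (κ := κ) J (FF R W) hFj (fun j => (3 / 4 : ℝ) * (1 / 4) ^ j) ((1 / 4) ^ J)
      (fun j => by positivity) (by positivity)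
    rw [sum_mainB, sum_quarter, one_mul] at h2
    rw [h1]
    exact h2
  have hAm : ((J : ℝ) + 2) / (2 * κ) * L = ((J : ℝ) + 2) / 2 * (L / κ) := by
    field_simp
  have hBm : (3 / 2 - (1 / 2) * (1 / 2) ^ J) / κ * L = (3 / 2 - (1 / 2) * (1 / 2 : ℝ) ^ J) * (L / κ) := by
    field_simp
  have hJ0 : (0 : ℝ) ≤ J := by positivity
  have hhalf : (0 : ℝ) ≤ (1 / 2) ^ J := by positivity
  have hhalf1 : (1 / 2 : ℝ) ^ J ≤ 1 := pow_le_one₀ (by norm_num) (by norm_num)
  rw [abs_le, hAm] at hA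
  rw [abs_le, hBm] at hB
  have hAu : A1 (wp R W) (gam K J) ≤ 11 / 10 * ((J : ℝ) + 2) / 2 * (L / κ) := by nlinarith
  have hAl : 9 / 10 * ((J : ℝ) + 2) / 2 * (L / κ) ≤ A1 (wp R W) (gam K J) := by nlinarith
  have hBl : 9 / 10 * (L / κ) ≤ B1 (wp R W) (gam K J) := by nlinarith
  have hBu : B1 (wp R W) (gam K J) ≤ 16 / 10 * (L / κ) := by nlinarith
  have hM : M1 (wp R W) (tp R W) (gam K J) ≤ A1 (wp R W) (gam K J) * (1 / κ) := by
    unfold M1 A1
    rw [sum_mul]
    apply sum_le_sum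
    intro S _
    have h1 : gam K J S * T (tp R W) S ≤ 1 / κ := by
      rw [gam_eq]
      exact gJ_mul hκ _ _
    have h2 : 0 ≤ gam K J S * ws (wp R W) S := by
      apply mul_nonneg (hG.g_nonneg S)
      unfold ws
      exact prod_nonneg fun p _ => hG.w_nonneg p
    calc gam K J S ^ 2 * T (tp R W) S * ws (wp R W) S =
          (gam K J S * ws (wp R W) S) * (gam K J S * T (tp R W) S) := by ring
      _ ≤ (gam K J S * ws (wp R W) S) * (1 / κ) := mul_le_mul_of_nonneg_left h1 h2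
      _ = gam K J S * ws (wp R W) S * (1 / κ) := by ring
  refine ⟨hG, ?_, ?_, ?_, ?_, ?_, ?_⟩
  · have hκe : κ = 8 * (K : ℝ) * (J + 2) := rfl
    have h1 : ((K : ℝ) - 1) * M1 (wp R W) (tp R W) (gam K J) ≤
        ((K : ℝ) - 1) * (A1 (wp R W) (gam K J) * (1 / κ)) :=
      mul_le_mul_of_nonneg_left hM (by linarith)
    have hA0 : 0 ≤ A1 (wp R W) (gam K J) := le_trans (by positivity) hAl
    have h2 : ((K : ℝ) - 1) * (A1 (wp R W) (gam K J) * (1 / κ)) ≤
        K * (A1 (wp R W) (gam K J) * (1 / κ)) := by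
      apply mul_le_mul_of_nonneg_right (by linarith)
      positivity
    have h3 : (K : ℝ) * (A1 (wp R W) (gam K J) * (1 / κ)) ≤
        K * ((11 / 10 * ((J : ℝ) + 2) / 2 * (L / κ)) * (1 / κ)) := by
      apply mul_le_mul_of_nonneg_left _ (by linarith)
      exact mul_le_mul_of_nonneg_right hAu (by positivity)
    have h4 : (K : ℝ) * ((11 / 10 * ((J : ℝ) + 2) / 2 * (L / κ)) * (1 / κ)) =
        11 / 160 * (L / κ) := by
      have h5 : (K : ℝ) * ((J : ℝ) + 2) * (1 / κ) = 1 / 8 := by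
        rw [hκe]
        have : (K : ℝ) ≠ 0 := by linarith
        have : (J : ℝ) + 2 ≠ 0 := by linarith
        field_simp
      calc (K : ℝ) * ((11 / 10 * ((J : ℝ) + 2) / 2 * (L / κ)) * (1 / κ)) =
          11 / 20 * (L / κ) * ((K : ℝ) * ((J : ℝ) + 2) * (1 / κ)) := by ring
        _ = 11 / 160 * (L / κ) := by rw [h5]; ring
    have h5 : (1 / 10 : ℝ) * (9 / 10) * (9 / 10 * (L / κ)) ≤
        1 / 10 * (1 - 2 ^ J / κ) * B1 (wp R W) (gam K J) := by
      apply mul_le_mul _ hBl (by positivity)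
      · nlinarith
      · nlinarith
    linarith
  · calc 9 / 10 * ((J : ℝ) + 2) / (2 * κ) * L = 9 / 10 * ((J : ℝ) + 2) / 2 * (L / κ) := by
          field_simp
      _ ≤ _ := hAl
  · calc A1 (wp R W) (gam K J) ≤ 11 / 10 * ((J : ℝ) + 2) / 2 * (L / κ) := hAu
      _ = 11 / 10 * ((J : ℝ) + 2) / (2 * κ) * L := by field_simp
  · calc 9 / 10 / κ * L = 9 / 10 * (L / κ) := by field_simp
      _ ≤ _ := hBl
  · calc B1 (wp R W) (gam K J) ≤ 16 / 10 * (L / κ) := hBu
      _ = 16 / 10 / κ * L := by field_simp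
  · have h1 := hFF 1 (by norm_num) le_rfl
    rw [abs_le, one_mul] at h1
    have h2 : V0 (wp R W) (tp R W) = FF R W 1 := rfl
    rw [h2]
    have h3 : L / κ ≤ L := div_le_self hL0.le hκ1
    linarith

theorem exp_le_sub {y : ℝ} (h0 : 0 ≤ y) (h1 : y ≤ 1 / 2) : Real.exp (-(2 * y)) ≤ 1 - y := by
  rw [Real.exp_neg]
  have h2 : 1 + 2 * y ≤ Real.exp (2 * y) := by linarith [Real.add_one_le_exp (2 * y)]
  have h3 : 0 < 1 + 2 * y := by linarith
  calc (Real.exp (2 * y))⁻¹ ≤ (1 + 2 * y)⁻¹ := inv_anti₀ h3 h2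
    _ ≤ 1 - y := by
      rw [inv_le_iff_one_le_mul₀ h3]
      nlinarith

theorem prod_small (n : ℕ) (hn : 2 ≤ n) :
    ∏ k ∈ Ico 2 n, (1 - 1 / (k : ℝ)) = 1 / ((n : ℝ) - 1) := by
  induction n, hn using Nat.le_induction with
  | base => norm_num
  | succ n hn ih =>
    have hn' : (2 : ℝ) ≤ n := by exact_mod_cast hn
    rw [prod_Ico_succ_top hn, ih]
    push_cast
    have h1 : (n : ℝ) - 1 ≠ 0 := by linarith
    have h2 : (n : ℝ) ≠ 0 := by linarith
    rw [add_sub_cancel_right]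
    field_simp

theorem totient_ge {D0 W : ℕ} (hD : 2 ≤ D0) (h : Reg D0 W) :
    1 / (8 * (D0 : ℝ)) ≤ (W.totient : ℝ) / W := by
  have hW : (0 : ℝ) < W := by exact_mod_cast h.pos
  have hD' : (2 : ℝ) ≤ D0 := by exact_mod_cast hD
  have h1 : (W.totient : ℝ) / W = ∏ p ∈ W.primeFactors, (1 - 1 / (p : ℝ)) := by
    have h2 := Nat.totient_eq_mul_prod_factors W
    have h3 : (W.totient : ℝ) = W * ∏ p ∈ W.primeFactors, (1 - (p : ℝ)⁻¹) := by
      have := congrArg (Rat.cast : ℚ → ℝ) h2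
      push_cast at this
      exact this
    rw [h3, mul_div_cancel_left₀ _ hW.ne']
    simp only [one_div]
  rw [h1, ← prod_filter_mul_prod_filter_not W.primeFactors (fun p => p < D0)]
  have hf : ∀ k : ℕ, 2 ≤ k → 0 ≤ 1 - 1 / (k : ℝ) ∧ 1 - 1 / (k : ℝ) ≤ 1 := by
    intro k hk
    have hk' : (2 : ℝ) ≤ k := by exact_mod_cast hk
    have h5 : 0 < 1 / (k : ℝ) := by positivity
    have h6 : 1 / (k : ℝ) ≤ 1 := by rw [div_le_one (by linarith)]; linarith
    exact ⟨by linarith, by linarith⟩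
  have h4 : 1 / ((D0 : ℝ) - 1) ≤ ∏ p ∈ W.primeFactors.filter (fun p => p < D0), (1 - 1 / (p : ℝ)) := by
    rw [← prod_small D0 hD]
    refine prod_le_prod_of_subset_of_le_one ?_ ?_ ?_
    · intro p hp
      rw [mem_filter, Nat.mem_primeFactors] at hp
      rw [mem_Ico]
      exact ⟨hp.1.1.two_le, hp.2⟩
    · intro k hk
      exact (hf k (mem_Ico.1 hk).1).1
    · intro k hk _
      exact (hf k (mem_Ico.1 hk).1).2
  have h5 : 1 / 8 ≤ ∏ p ∈ W.primeFactors.filter (fun p => ¬ p < D0), (1 - 1 / (p : ℝ)) := by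
    have h6 : ∏ p ∈ W.primeFactors.filter (fun p => ¬ p < D0), Real.exp (-(2 * (1 / (p : ℝ)))) ≤
        ∏ p ∈ W.primeFactors.filter (fun p => ¬ p < D0), (1 - 1 / (p : ℝ)) := by
      refine prod_le_prod (fun p _ => (Real.exp_pos _).le) fun p hp => ?_
      rw [mem_filter, Nat.mem_primeFactors] at hp
      have h7 : (2 : ℝ) ≤ p := by exact_mod_cast hp.1.1.two_le
      refine exp_le_sub (by positivity) ?_
      exact one_div_le_one_div_of_le (by norm_num) h7
    refine le_trans ?_ h6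
    rw [← Real.exp_sum]
    have h7 : ∑ p ∈ W.primeFactors.filter (fun p => ¬ p < D0), (-(2 * (1 / (p : ℝ)))) =
        -(2 * ∑ p ∈ W.primeFactors.filter (fun p => D0 ≤ p), 1 / (p : ℝ)) := by
      rw [sum_neg_distrib, mul_sum]
      simp only [not_lt]
    rw [h7]
    have h8 := h.few
    have h9 : Real.exp (-2) ≤
        Real.exp (-(2 * ∑ p ∈ W.primeFactors.filter (fun p => D0 ≤ p), 1 / (p : ℝ))) :=
      Real.exp_le_exp.2 (by linarith)
    refine le_trans ?_ h9
    rw [Real.exp_neg, one_div]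
    apply inv_anti₀ (Real.exp_pos _)
    have h10 : Real.exp 2 = Real.exp 1 * Real.exp 1 := by rw [← Real.exp_add]; norm_num
    have h11 := Real.exp_one_lt_d9
    have h12 := Real.exp_pos 1
    rw [h10]
    nlinarith
  have h6 : 1 / (8 * (D0 : ℝ)) ≤ 1 / ((D0 : ℝ) - 1) * (1 / 8) := by
    rw [div_mul_div_comm, one_mul]
    exact one_div_le_one_div_of_le (by linarith) (by linarith)
  refine h6.trans ?_
  apply mul_le_mul h4 h5 (by norm_num)
  exact prod_nonneg fun p hp => (hf p (by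
    rw [mem_filter, Nat.mem_primeFactors] at hp
    exact hp.1.1.two_le)).1

/-- MU-A. -/
theorem oneDimU (hF : SqfreeSumU) : OneDimU := by
  obtain ⟨C, hC, hS⟩ := hF
  intro K J D0 A hK hJ hD hA
  have hD2 : 2 ≤ D0 := by
    have h1 := D0_ge hK hD
    have h2 : 1 ≤ (K + 2) ^ 2 := Nat.one_le_pow _ _ (by omega)
    omega
  have hD' : (2 : ℝ) ≤ D0 := by exact_mod_cast hD2
  have hκ : 0 < Kp K J := by
    have : 0 < K := hK
    unfold Kp
    positivity
  -- the condition on x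
  have hx : ∀ᶠ x : ℝ in Filter.atTop, 3 ≤ lev x ∧
      2560 * (D0 : ℝ) ^ 2 * Kp K J * C * (1 + A * Real.log (Real.log x)) ≤ Real.log (lev x) := by
    have h1 : ∀ᶠ x : ℝ in Filter.atTop, (3 : ℝ) ≤ x ^ (1 / 81 : ℝ) - 1 :=
      ((tendsto_rpow_atTop (by norm_num : (0 : ℝ) < 1 / 81)).eventually_ge_atTop 4).mono
        fun x hx => by linarith
    have h2 : ∀ᶠ x : ℝ in Filter.atTop,
        2560 * (D0 : ℝ) ^ 2 * Kp K J * C * (1 + A * Real.log (Real.log x)) ≤
          1 / 81 * Real.log x - 1 := by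
      have h3 : (fun y : ℝ => 2560 * (D0 : ℝ) ^ 2 * Kp K J * C * (1 + A * Real.log y) + 1)
          =o[Filter.atTop] fun y : ℝ => y := by
        have e1 : (fun y : ℝ => 2560 * (D0 : ℝ) ^ 2 * Kp K J * C * (1 + A * Real.log y) + 1) =
            fun y : ℝ => (2560 * (D0 : ℝ) ^ 2 * Kp K J * C + 1) +
              (2560 * (D0 : ℝ) ^ 2 * Kp K J * C * A) * Real.log y := by
          funext y
          ring
        rw [e1]
        refine Asymptotics.IsLittleO.add ?_ (Real.isLittleO_log_id_atTop.const_mul_left _)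
        exact Asymptotics.isLittleO_const_id_atTop _
      have h4 := (h3.bound (by norm_num : (0 : ℝ) < 1 / 81))
      have h5 := Real.tendsto_log_atTop.eventually (h4.and (Filter.eventually_ge_atTop 1))
      filter_upwards [h5] with x hx
      obtain ⟨h6, h7⟩ := hx
      rw [Real.norm_eq_abs, Real.norm_eq_abs, abs_of_nonneg (by linarith : (0 : ℝ) ≤ Real.log x)] at h6
      have h8 := (abs_le.1 h6).2
      linarith
    filter_upwards [h1, h2, Filter.eventually_ge_atTop (3 : ℝ)] with x hx1 hx2 hx3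
    have hx0 : 0 < x := by linarith
    have hf : x ^ (1 / 81 : ℝ) - 1 < (lev x : ℝ) := by
      have := Nat.lt_floor_add_one (x ^ (1 / 81 : ℝ))
      unfold lev
      linarith
    have h3 : (3 : ℝ) < lev x := lt_of_le_of_lt hx1 hf
    refine ⟨by exact_mod_cast h3.le, hx2.trans ?_⟩
    have h4 : x ^ (1 / 81 : ℝ) / Real.exp 1 ≤ lev x := by
      rw [div_le_iff₀ (Real.exp_pos 1)]
      have h5 : (2 : ℝ) ≤ Real.exp 1 := by linarith [Real.add_one_le_exp (1 : ℝ)]
      nlinarith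
    have h5 : 0 < x ^ (1 / 81 : ℝ) := Real.rpow_pos_of_pos hx0 _
    have h6 := Real.log_le_log (by positivity) h4
    rw [Real.log_div h5.ne' (Real.exp_pos 1).ne', Real.log_exp, Real.log_rpow hx0] at h6
    exact h6
  obtain ⟨X0, hX0⟩ := Filter.eventually_atTop.1 hx
  refine ⟨max 3 X0, le_max_left _ _, fun x hxx W hW hWx => ?_⟩
  have hx3 : (3 : ℝ) ≤ x := (le_max_left _ _).trans hxx
  obtain ⟨hR3, hbig⟩ := hX0 x ((le_max_right _ _).trans hxx)
  obtain ⟨c, hc1, hc2, hc⟩ := hS W hW.pos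
  have hW0 : (0 : ℝ) < W := by exact_mod_cast hW.pos
  have hφ := totient_ge hD2 hW
  have hφ1 : (W.totient : ℝ) / W ≤ 1 := by
    rw [div_le_one hW0]
    exact_mod_cast Nat.totient_le W
  have hφ0 : 0 < (W.totient : ℝ) / W := lt_of_lt_of_le (by positivity) hφ
  have hc0 : 1 / (32 * (D0 : ℝ)) ≤ c := by
    refine le_trans ?_ hc1
    have e1 : (W.totient : ℝ) / (4 * W) = (W.totient : ℝ) / W / 4 := by
      rw [div_div, mul_comm (4 : ℝ)]
    have e2 : 1 / (32 * (D0 : ℝ)) = 1 / (8 * (D0 : ℝ)) / 4 := by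
      rw [div_div]
      congr 1
      ring
    rw [e1, e2]
    exact div_le_div_of_nonneg_right hφ (by norm_num)
  refine ⟨c, hc1, hc2.trans hφ1, hc0, ?_⟩
  have hinv : (W : ℝ) / W.totient ≤ 8 * D0 := by
    have h1 : (W : ℝ) / W.totient = ((W.totient : ℝ) / W)⁻¹ := by rw [inv_div]
    rw [h1]
    have h2 := inv_anti₀ (by positivity) hφ
    rwa [one_div, inv_inv] at h2
  have hinv0 : 0 ≤ (W : ℝ) / W.totient := by positivity
  have hlogx : 1 ≤ Real.log x := by
    rw [Real.le_log_iff_exp_le (by linarith)]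
    linarith [Real.exp_one_lt_d9]
  have hllx : 0 ≤ Real.log (Real.log x) := Real.log_nonneg hlogx
  have hlW : Real.log W ≤ A * Real.log (Real.log x) := by
    have h1 := Real.log_le_log hW0 hWx
    rwa [Real.log_rpow (by linarith)] at h1
  have hlW0 : 0 ≤ Real.log W := Real.log_natCast_nonneg W
  have hW1 : 0 < (W : ℝ) / W.totient := by
    have h1 : (W : ℝ) / W.totient = ((W.totient : ℝ) / W)⁻¹ := by rw [inv_div]
    rw [h1]
    exact inv_pos.2 hφ0
  have hC' : 0 < C * ((W : ℝ) / W.totient) * (1 + Real.log W) := by positivity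
  refine core hK hJ hD hW.small hR3 hC' hc ?_
  have hlR : 0 ≤ Real.log (lev x) := Real.log_natCast_nonneg _
  calc 10 * Kp K J * (C * ((W : ℝ) / W.totient) * (1 + Real.log W)) ≤
      10 * Kp K J * (C * (8 * D0) * (1 + A * Real.log (Real.log x))) := by
        apply mul_le_mul_of_nonneg_left _ (by positivity)
        apply mul_le_mul _ (by linarith) (by linarith) (by positivity)
        exact mul_le_mul_of_nonneg_left hinv hC.le
    _ = 1 / (32 * (D0 : ℝ)) *
        (2560 * (D0 : ℝ) ^ 2 * Kp K J * C * (1 + A * Real.log (Real.log x))) := by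
        field_simp
        norm_num
    _ ≤ 1 / (32 * (D0 : ℝ)) * Real.log (lev x) :=
        mul_le_mul_of_nonneg_left hbig (by positivity)
    _ ≤ c * Real.log (lev x) := mul_le_mul_of_nonneg_right hc0 hlR

end Pool.Agent.Helper81.MT
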